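import Pool.Agent.H98.QW.SelE
import Pool.Agent.H21.POT.Sum
import Pool.Agent.H19.BFL.Stmts

/-!
# The short fibre for a random body (K_POT, section 5)

`selr`: the literal form of (SELR).
-/

set_option autoImplicit false

namespace Pool.QC98

open Finset Matrix
open Pool.Agent.H49.Ent Pool.Agent.H32.Dense Pool.STK Pool.KS6 Pool.FAD Pool.QC Pool.POT
open Pool.BFL (Pb)

variable {c : ℕ}

theorem Pb_not {W : Type} [Fintype W] {q : W → ℝ} (h1 : ∑ w, q w = 1) (P : W → Prop) :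
    Pb q P = 1 - Ex q (fun w => ind (¬ P w)) := by
  unfold Pb Ex
  rw [← h1, ← Finset.sum_sub_distrib]
  refine Finset.sum_congr rfl fun w _ => ?_
  unfold ind
  by_cases h : P w <;> simp [h]

/-- The constant of `selr`. -/
noncomputable def Cr (c : ℕ) : ℝ := Kr c (c + 1) + Real.log 2

theorem Cr_nonneg (c : ℕ) : 0 ≤ Cr c := by
  have hl : 0 < Real.log 2 := Real.log_pos (by norm_num)
  unfold Cr Kr
  positivity

/-- **(SELR).** -/
theorem selr {Ω ζ : Type} [Fintype Ω] {p : Ω → ℝ} (hp : IsLaw p) (nu : Ω → Fin c → ℤ)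
    (Z : Ω → ζ) (A : Ω → Matrix (Fin c) (Fin c) ℝ) (hdA : Det p Z A) (hA : ∀ ω, (A ω).det ≠ 0)
    {X B : ℕ} (hX : 0 < X) (hB : 0 < B) (hI : ∀ ω i j, |(A ω)⁻¹ i j| ≤ 2 ^ X) {E0 : ℝ}
    (hE : DF p (fun _ => Tx c X) A (fun ω i => (nu ω i : ℝ) / 2 ^ X) Z ≤ E0) (n : Fin c)
    {c0 x1 : ℝ} (hx : 0 ≤ x1) (hnf : nfb p nu Z n X B ≤ (1 - c0) * X * Real.log 2) :
    c0 - x1 - B * (E0 + Cr c) / (X * Real.log 2) ≤ Pb p (fun ω => Gc n X B x1 (A ω)) := by
  have hl : 0 < Real.log 2 := Real.log_pos (by norm_num)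
  have hXr : (0 : ℝ) < X := by exact_mod_cast hX
  have hBr : (1 : ℝ) ≤ B := by exact_mod_cast hB
  have key := sel_rand hp nu Z A hdA hA (X := X) (B := B) (c1 := (c : ℝ) + 1)
    (by
      have : (0 : ℝ) ≤ c := Nat.cast_nonneg c
      linarith) (fun ω => inc_of_inv (hI ω)) n hB hx
  rw [Pb_not hp.sum_one]
  obtain ⟨P, hP⟩ : ∃ P, P = Ex p (fun ω => ind (¬ Gc n X B x1 (A ω))) := ⟨_, rfl⟩
  have hP1 : P ≤ 1 := by
    rw [hP]
    have h1 : Ex p (fun ω => ind (¬ Gc n X B x1 (A ω))) ≤ Ex p (fun _ => (1 : ℝ)) := by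
      refine Ex_mono hp.nonneg fun ω _ => ?_
      unfold ind
      split_ifs <;> norm_num
    rwa [Ex_const hp.sum_one] at h1
  rw [← hP] at key ⊢
  have e0 : DF p (fun _ => Matrix.diagonal fun _ => ((2 : ℝ) ^ X)⁻¹) A
      (fun ω i => (nu ω i : ℝ) / 2 ^ X) Z ≤ E0 := hE
  have e1 : P * ((X - x1 * X - 1) * Real.log 2) ≤
      (1 - c0) * X * Real.log 2 + B * (E0 + Kr c (c + 1)) := by
    have : (B : ℝ) * (DF p (fun _ => Matrix.diagonal fun _ => ((2 : ℝ) ^ X)⁻¹) A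
        (fun ω i => (nu ω i : ℝ) / 2 ^ X) Z + Kr c (c + 1)) ≤ B * (E0 + Kr c (c + 1)) :=
      mul_le_mul_of_nonneg_left (by linarith) (by linarith)
    linarith
  have e2 : P * X * Real.log 2 ≤ (1 - c0 + x1) * X * Real.log 2 + B * (E0 + Cr c) := by
    have h1 : P * (x1 * X + 1) * Real.log 2 ≤ 1 * (x1 * X + 1) * Real.log 2 := by
      refine mul_le_mul_of_nonneg_right (mul_le_mul_of_nonneg_right hP1 (by positivity)) hl.le
    have h2 : Real.log 2 ≤ B * Real.log 2 := le_mul_of_one_le_left hl.le hBr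
    unfold Cr
    linarith
  have e3 : P ≤ 1 - c0 + x1 + B * (E0 + Cr c) / (X * Real.log 2) := by
    have h3 : 0 < (X : ℝ) * Real.log 2 := by positivity
    have h4 : P * (X * Real.log 2) ≤
        (1 - c0 + x1 + B * (E0 + Cr c) / (X * Real.log 2)) * (X * Real.log 2) := by
      rw [add_mul _ (B * (E0 + Cr c) / (X * Real.log 2)), div_mul_cancel₀ _ h3.ne']
      linarith
    exact le_of_mul_le_mul_right h4 h3
  linarith

end Pool.QC98
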